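import Pool.Agent.Helper63.P705.NR.Goals

/-!
# MP_705522_gt, packet NR-GM: moments of `zf` and `ff`
-/

namespace Pool.Agent.Helper3.NR

open MeasureTheory Set Filter Topology
open Pool.Agent.Helper53.PT Pool.Agent.Helper63.P705.NR

theorem gM : Pool.Agent.Helper63.P705.NR.GM := by
  intro hD θ h0 h1
  obtain ⟨hk, hsg, hcz, hzb, hz', -, hint, hlaw⟩ := hD θ h0 h1
  obtain ⟨-, -, hmom, hm, hm3, -, -⟩ := aLAW h0 h1
  -- integrability of `y^k ff`
  have hfi : ∀ k : ℕ, IntegrableOn (fun y : ℝ => y ^ k * ff θ y) (Ioi 0) := by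
    intro k
    have h := (hlaw (fun y : ℝ => y ^ k)).1.1 (hmom k)
    refine h.congr_fun (fun y _ => ?_) measurableSet_Ioi
    ring
  have hzi : ∀ k : ℕ, IntegrableOn (fun y : ℝ => y ^ k * zf θ y) (Ioi 0) := by
    intro k
    have h := hint (k : ℝ) (by
      have : (0 : ℝ) ≤ k := Nat.cast_nonneg k
      linarith)
    refine h.congr_fun (fun y _ => ?_) measurableSet_Ioi
    simp only [Real.rpow_natCast]
  have hfm : ∀ k : ℕ, ∫ y in Ioi (0 : ℝ), y ^ k * ff θ y = ∫ y, y ^ k ∂(nu θ) := by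
    intro k
    rw [(hlaw (fun y : ℝ => y ^ k)).2]
    refine setIntegral_congr_fun measurableSet_Ioi fun y _ => ?_
    ring
  -- `z(0)`
  have hz0 : zf θ 0 = 1 / sg θ := by
    unfold zf
    rw [Real.zero_rpow (by positivity), mul_zero, neg_zero, Real.exp_zero, mul_one]
  -- `∫ y ff`
  have e1 : ∫ y in Ioi (0 : ℝ), y * ff θ y = 1 / sg θ := by
    have hi1 : IntegrableOn (fun y : ℝ => -(y * ff θ y)) (Ioi 0) := by
      have := (hfi 1).neg
      refine this.congr_fun (fun y _ => ?_) measurableSet_Ioi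
      simp only [pow_one, Pi.neg_apply]
    have hi0 : IntegrableOn (zf θ) (Ioi 0) := by
      refine (hzi 0).congr_fun (fun y _ => ?_) measurableSet_Ioi
      simp only [pow_zero, one_mul]
    have ht : Tendsto (zf θ) atTop (𝓝 0) :=
      tendsto_zero_of_hasDerivAt_of_integrableOn_Ioi (a := 0) (fun y hy => hz' y hy) hi1 hi0
    have h := integral_Ioi_of_hasDerivAt_of_tendsto (a := 0) (f := zf θ)
      hcz.continuousWithinAt (fun y hy => hz' y hy) hi1 ht
    rw [integral_neg, hz0] at h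
    linarith
  -- integration by parts
  have hparts : ∀ k : ℕ, ((k : ℝ) + 1) * ∫ y in Ioi (0 : ℝ), y ^ k * zf θ y =
      ∫ y in Ioi (0 : ℝ), y ^ (k + 2) * ff θ y := by
    intro k
    have hd : ∀ y ∈ Ioi (0 : ℝ), HasDerivAt (fun y : ℝ => y ^ (k + 1) * zf θ y)
        (((k : ℝ) + 1) * (y ^ k * zf θ y) - y ^ (k + 2) * ff θ y) y := by
      intro y hy
      have h := (hasDerivAt_pow (k + 1) y).mul (hz' y hy)
      refine HasDerivAt.congr_deriv h ?_
      rw [show k + 1 - 1 = k by omega]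
      push_cast
      ring
    have hi : IntegrableOn (fun y : ℝ => ((k : ℝ) + 1) * (y ^ k * zf θ y) - y ^ (k + 2) * ff θ y)
        (Ioi 0) := ((hzi k).const_mul _).sub (hfi (k + 2))
    have ht := tendsto_zero_of_hasDerivAt_of_integrableOn_Ioi (a := 0) hd hi (hzi (k + 1))
    have hc : ContinuousWithinAt (fun y : ℝ => y ^ (k + 1) * zf θ y) (Ici 0) 0 :=
      ((continuous_pow (k + 1)).mul hcz).continuousWithinAt
    have h := integral_Ioi_of_hasDerivAt_of_tendsto hc hd hi ht
    rw [integral_sub ((hzi k).const_mul _) (hfi (k + 2)), integral_const_mul] at h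
    simp only [ne_eq, Nat.succ_ne_zero, not_false_eq_true, zero_pow, zero_mul, sub_zero] at h
    linarith
  have m0 : ∫ y, y ^ 0 ∂(nu θ) = 1 := by
    have h := hm 0
    rw [mo_zero h0 (by linarith)] at h
    simpa only [mul_zero] using h
  have m2 : ∫ y, y ^ 2 ∂(nu θ) = 1 := by
    have h := hm 1
    rw [mo_one h0 (by linarith)] at h
    simpa only [mul_one] using h
  have m4 : ∫ y, y ^ 4 ∂(nu θ) = mo θ 2 := by
    have h := hm 2
    simpa only [show 2 * 2 = 4 by norm_num] using h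
  have z0 := hparts 0
  have z1 := hparts 1
  have z2 := hparts 2
  rw [hfm] at z0 z1 z2
  simp only [zero_add, m2, CharP.cast_eq_zero, one_mul, pow_zero] at z0
  simp only [show 1 + 2 = 3 by norm_num, hm3, pow_one, Nat.cast_one] at z1
  simp only [show 2 + 2 = 4 by norm_num, m4, Nat.cast_ofNat] at z2
  have f0' := hfm 0
  rw [m0] at f0'
  simp only [pow_zero, one_mul] at f0'
  refine ⟨z0, by linarith, by linarith, f0', e1, ?_, ?_, ?_⟩
  · rw [hfm, m2]
  · rw [hfm, hm3]
  · rw [hfm, m4]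

end Pool.Agent.Helper3.NR
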